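import Mathlib

/-! Links of nearly extremal `K_r^3`-free 3-graphs: replacing vertices. -/

set_option autoImplicit false
open Finset

namespace Pool.Agent.H70.LO

variable {n : ℕ}

/-- `H` is a 3-graph on `Fin n` without `r` vertices all of whose triples are edges. -/
def Free (r : ℕ) {n : ℕ} (H : Finset (Finset (Fin n))) : Prop :=
  (∀ e ∈ H, e.card = 3) ∧ ∀ S : Finset (Fin n), S.card = r → ∃ e ⊆ S, e.card = 3 ∧ e ∉ H

/-- The maximum number of edges of a `K_r^3`-free 3-graph on `n` vertices. -/
noncomputable def ex (r n : ℕ) : ℕ :=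
  sSup {m : ℕ | ∃ H : Finset (Finset (Fin n)), Free r H ∧ H.card = m}

theorem card_le_ex {r n : ℕ} {H : Finset (Finset (Fin n))} (h : Free r H) : H.card ≤ ex r n := by
  apply le_csSup
  · refine ⟨Fintype.card (Finset (Finset (Fin n))) + (univ : Finset (Finset (Fin n))).card, ?_⟩
    rintro m ⟨K, _, rfl⟩
    exact (card_le_univ K).trans (Nat.le_add_left _ _)
  · exact ⟨H, h, rfl⟩

/-- the link graph of a vertex -/
def link (H : Finset (Finset (Fin n))) (u : Fin n) : Finset (Finset (Fin n)) :=
  ((univ : Finset (Fin n)).powersetCard 2).filter fun p => u ∉ p ∧ insert u p ∈ H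

/-- the vertices which form an edge with `u` and `v` -/
def nbr (H : Finset (Finset (Fin n))) (u v : Fin n) : Finset (Fin n) :=
  univ.filter fun w => w ≠ u ∧ w ≠ v ∧ ({u, v, w} : Finset (Fin n)) ∈ H

/-- The graph `G` is compatible with `H`: no `r - 1` vertices form a clique of `G` and have all their triples in `H`. -/
def Compatible (r : ℕ) (H G : Finset (Finset (Fin n))) : Prop :=
  (∀ p ∈ G, p.card = 2) ∧ ∀ S : Finset (Fin n), S.card + 1 = r →
    (∃ p ⊆ S, p.card = 2 ∧ p ∉ G) ∨ ∃ e ⊆ S, e.card = 3 ∧ e ∉ H

/-- The set `W` is admissible for `u`, `v`: there are no `r - 2` vertices in `W` all of whose pairs are in both links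
and all of whose triples are in `H`. -/
def Admissible (r : ℕ) (H : Finset (Finset (Fin n))) (u v : Fin n) (W : Finset (Fin n)) : Prop :=
  u ∉ W ∧ v ∉ W ∧ ∀ S ⊆ W, S.card + 2 = r →
    (∃ p ⊆ S, p.card = 2 ∧ (insert u p ∉ H ∨ insert v p ∉ H)) ∨ ∃ e ⊆ S, e.card = 3 ∧ e ∉ H

theorem mem_link {H : Finset (Finset (Fin n))} {u : Fin n} {p : Finset (Fin n)} :
    p ∈ link H u ↔ p.card = 2 ∧ u ∉ p ∧ insert u p ∈ H := by
  unfold link
  rw [mem_filter, mem_powersetCard]
  simp

/-- `S` with `u` is a set of `r` vertices if all pairs of `S` avoid `u`. -/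
theorem compatible_link {r : ℕ} (hr : 3 ≤ r) {H : Finset (Finset (Fin n))} (hH : Free r H) (u : Fin n) :
    Compatible r H (link H u) := by
  refine ⟨fun p hp => (mem_link.1 hp).1, fun S hS => ?_⟩
  by_contra hcon
  push Not at hcon
  obtain ⟨h2, h3⟩ := hcon
  have huS : u ∉ S := by
    intro hu
    obtain ⟨p, hp, hpS, hpc⟩ := Finset.exists_subsuperset_card_eq (s := {u}) (t := S) (n := 2)
      (by simpa using hu) (by simp) (by omega)
    have := h2 p hpS hpc
    exact (mem_link.1 this).2.1 (by simpa using hp)
  obtain ⟨e, he, hec, heH⟩ := hH.2 (insert u S) (by rw [card_insert_of_notMem huS]; omega)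
  by_cases hue : u ∈ e
  · have h1 : e.erase u ⊆ S := by
      intro x hx
      rw [mem_erase] at hx
      have := he hx.2
      rw [mem_insert] at this
      tauto
    have h4 := h2 (e.erase u) h1 (by rw [card_erase_of_mem hue]; omega)
    have h5 := (mem_link.1 h4).2.2
    rw [insert_erase hue] at h5
    exact heH h5
  · have h1 : e ⊆ S := by
      intro x hx
      have := he hx
      rw [mem_insert] at this
      rcases this with h | h
      · exact absurd (h ▸ hx) hue
      · exact h
    exact heH (h3 e h1 hec)

/-- the 3-graph in which the vertices of `A` get the link `G` -/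
def repl (H G : Finset (Finset (Fin n))) (A : Finset (Fin n)) : Finset (Finset (Fin n)) :=
  H.filter (fun e => Disjoint e A) ∪ (A ×ˢ G.filter (fun p => Disjoint p A)).image fun q => insert q.1 q.2

theorem mem_repl {H G : Finset (Finset (Fin n))} {A : Finset (Fin n)} {e : Finset (Fin n)} :
    e ∈ repl H G A ↔ (e ∈ H ∧ Disjoint e A) ∨ ∃ a ∈ A, ∃ p ∈ G, Disjoint p A ∧ insert a p = e := by
  unfold repl
  simp only [mem_union, mem_filter, mem_image, mem_product, Prod.exists]
  constructor
  · rintro (h | ⟨a, p, ⟨ha, hp, hd⟩, rfl⟩)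
    · exact Or.inl h
    · exact Or.inr ⟨a, ha, p, hp, hd, rfl⟩
  · rintro (h | ⟨a, ha, p, hp, hd, rfl⟩)
    · exact Or.inl h
    · exact Or.inr ⟨a, p, ⟨ha, hp, hd⟩, rfl⟩

theorem inter_insert {A p : Finset (Fin n)} {a : Fin n} (ha : a ∈ A) (hd : Disjoint p A) :
    (insert a p) ∩ A = {a} := by
  ext x
  simp only [mem_inter, mem_insert, mem_singleton]
  constructor
  · rintro ⟨h | h, hA⟩
    · exact h
    · exact absurd hA (disjoint_left.1 hd h)
  · rintro rfl
    exact ⟨Or.inl rfl, ha⟩

theorem free_repl {r : ℕ} (hr : 3 ≤ r) {H G : Finset (Finset (Fin n))} (hH : Free r H) (hG : Compatible r H G)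
    (A : Finset (Fin n)) : Free r (repl H G A) := by
  constructor
  · intro e he
    rcases mem_repl.1 he with h | ⟨a, ha, p, hp, hd, rfl⟩
    · exact hH.1 e h.1
    · rw [card_insert_of_notMem (fun h => disjoint_left.1 hd h ha), hG.1 p hp]
  · intro S hS
    by_contra hcon
    push Not at hcon
    -- at most one vertex of `A`
    have hone : ∀ a ∈ S, ∀ b ∈ S, a ∈ A → b ∈ A → a = b := by
      intro a ha b hb haA hbA
      by_contra hab
      obtain ⟨e, he, heS, hec⟩ := Finset.exists_subsuperset_card_eq (s := {a, b}) (t := S) (n := 3)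
        (by intro x hx; simp only [mem_insert, mem_singleton] at hx; rcases hx with rfl | rfl <;> assumption)
        (by rw [card_pair hab]; omega) (by omega)
      have h1 := hcon e heS hec
      have hae : a ∈ e := he (by simp)
      have hbe : b ∈ e := he (by simp)
      rcases mem_repl.1 h1 with h | ⟨c, hc, p, hp, hd, rfl⟩
      · exact disjoint_left.1 h.2 hae haA
      · have h2 := inter_insert hc hd
        have h3 : a ∈ ({c} : Finset (Fin n)) := by rw [← h2]; exact mem_inter.2 ⟨hae, haA⟩
        have h4 : b ∈ ({c} : Finset (Fin n)) := by rw [← h2]; exact mem_inter.2 ⟨hbe, hbA⟩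
        rw [mem_singleton] at h3 h4
        exact hab (h3.trans h4.symm)
    by_cases hSA : Disjoint S A
    · obtain ⟨e, he, hec, heH⟩ := hH.2 S hS
      rcases mem_repl.1 (hcon e he hec) with h | ⟨a, ha, p, hp, hd, rfl⟩
      · exact heH h.1
      · exact disjoint_left.1 hSA (he (mem_insert_self a p)) ha
    · rw [not_disjoint_iff] at hSA
      obtain ⟨a, haS, haA⟩ := hSA
      have hT : ∀ x ∈ S.erase a, x ∉ A := by
        intro x hx hxA
        rw [mem_erase] at hx
        exact hx.1 (hone x hx.2 a haS hxA haA)
      have hTd : ∀ T ⊆ S.erase a, Disjoint T A := fun T hT' => disjoint_left.2 fun x hx => hT x (hT' hx)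
      rcases hG.2 (S.erase a) (by rw [card_erase_of_mem haS]; omega) with ⟨p, hp, hpc, hpG⟩ | ⟨e, he, hec, heH⟩
      · have hap : a ∉ p := fun h => (mem_erase.1 (hp h)).1 rfl
        have h1 := hcon (insert a p) (insert_subset haS (hp.trans (erase_subset _ _)))
          (by rw [card_insert_of_notMem hap, hpc])
        rcases mem_repl.1 h1 with h | ⟨c, hc, q, hq, hd, hcq⟩
        · exact disjoint_left.1 h.2 (mem_insert_self a p) haA
        · have h2 := inter_insert hc hd
          have h3 := inter_insert haA (hTd p hp)
          rw [hcq, h3] at h2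
          have hac : a = c := by simpa using h2
          subst hac
          have haq : a ∉ q := fun h => disjoint_left.1 hd h haA
          have : q = p := by
            have := congrArg (fun s => s.erase a) hcq
            simpa [erase_insert haq, erase_insert hap] using this
          exact hpG (this ▸ hq)
      · rcases mem_repl.1 (hcon e (he.trans (erase_subset _ _)) hec) with h | ⟨c, hc, q, hq, hd, hcq⟩
        · exact heH h.1
        · have : c ∈ e := by rw [← hcq]; exact mem_insert_self c q
          exact hT c (he this) hc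

theorem card_repl {H G : Finset (Finset (Fin n))} {A : Finset (Fin n)} :
    (repl H G A).card = (H.filter fun e => Disjoint e A).card + A.card * (G.filter fun p => Disjoint p A).card := by
  unfold repl
  rw [card_union_of_disjoint, card_image_of_injOn, card_product]
  · rintro ⟨a, p⟩ h1 ⟨b, q⟩ h2 h
    simp only [coe_product, Set.mem_prod, mem_coe, mem_filter] at h1 h2
    simp only at h
    have e1 := inter_insert h1.1 h1.2.2
    have e2 := inter_insert h2.1 h2.2.2
    rw [h, e2] at e1
    have hab : b = a := by simpa using e1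
    subst hab
    have ha : b ∉ p := fun h => disjoint_left.1 h1.2.2 h h1.1
    have hb : b ∉ q := fun h => disjoint_left.1 h2.2.2 h h1.1
    have := congrArg (fun s => s.erase b) h
    simp only [erase_insert ha, erase_insert hb] at this
    rw [this]
  · rw [disjoint_left]
    intro e he he'
    simp only [mem_filter, mem_image, mem_product, Prod.exists] at he he'
    obtain ⟨a, p, ⟨ha, _⟩, rfl⟩ := he'
    exact disjoint_left.1 he.2 (mem_insert_self a p) ha

/-- **Replacement.** If the vertices of `A` are given the compatible link `G` then no `K_r^3` arises. -/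
theorem replace {r : ℕ} (hr : 3 ≤ r) {H G : Finset (Finset (Fin n))} (hH : Free r H) (hG : Compatible r H G)
    (A : Finset (Fin n)) :
    (H.filter fun e => Disjoint e A).card + A.card * (G.filter fun p => Disjoint p A).card ≤ ex r n := by
  rw [← card_repl]
  exact card_le_ex (free_repl hr hH hG A)

end Pool.Agent.H70.LO
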