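import Pool.Agent.H70.LO.Rand

/-! Degrees, and the consequences of the replacement inequality. -/

set_option autoImplicit false
open Finset

namespace Pool.Agent.H70.LO

variable {n : ℕ}

theorem card_edges_at {H : Finset (Finset (Fin n))} (h3 : ∀ e ∈ H, e.card = 3) (u : Fin n) :
    (H.filter fun e => u ∈ e).card = (link H u).card := by
  refine card_bij' (fun e _ => e.erase u) (fun p _ => insert u p) ?_ ?_ ?_ ?_
  · intro e he
    rw [mem_filter] at he
    rw [mem_link, card_erase_of_mem he.2, h3 e he.1, insert_erase he.2]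
    exact ⟨rfl, by simp, he.1⟩
  · intro p hp
    rw [mem_link] at hp
    rw [mem_filter]
    exact ⟨hp.2.2, mem_insert_self u p⟩
  · intro e he
    rw [mem_filter] at he
    exact insert_erase he.2
  · intro p hp
    rw [mem_link] at hp
    exact erase_insert hp.2.1

theorem mem_nbr {H : Finset (Finset (Fin n))} {u v w : Fin n} :
    w ∈ nbr H u v ↔ w ≠ u ∧ w ≠ v ∧ ({u, v, w} : Finset (Fin n)) ∈ H := by
  unfold nbr
  simp

/-- The number of pairs of a graph that contain a vertex is less than `n`. -/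
theorem card_at_le {G : Finset (Finset (Fin n))} (hG : ∀ p ∈ G, p.card = 2) (a : Fin n) :
    (G.filter fun p => a ∈ p).card ≤ n := by
  have h : (G.filter fun p => a ∈ p) ⊆ (univ : Finset (Fin n)).image fun b => ({a, b} : Finset (Fin n)) := by
    intro p hp
    rw [mem_filter] at hp
    have hc := hG p hp.1
    obtain ⟨x, y, hxy, rfl⟩ := card_eq_two.1 hc
    rw [mem_image]
    have := hp.2
    simp only [mem_insert, mem_singleton] at this
    rcases this with rfl | rfl
    · exact ⟨y, mem_univ _, rfl⟩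
    · exact ⟨x, mem_univ _, pair_comm _ _⟩
  exact (card_le_card h).trans (card_image_le.trans (by simp))

theorem touch_le {F : Finset (Finset (Fin n))} (A : Finset (Fin n)) :
    F.card ≤ (F.filter fun e => Disjoint e A).card + ∑ a ∈ A, (F.filter fun e => a ∈ e).card := by
  have h : F ⊆ (F.filter fun e => Disjoint e A) ∪ A.biUnion fun a => F.filter fun e => a ∈ e := by
    intro e he
    rw [mem_union, mem_filter, mem_biUnion]
    by_cases hd : Disjoint e A
    · exact Or.inl ⟨he, hd⟩
    · rw [not_disjoint_iff] at hd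
      obtain ⟨a, hae, haA⟩ := hd
      exact Or.inr ⟨a, haA, mem_filter.2 ⟨he, hae⟩⟩
  refine (card_le_card h).trans ((card_union_le _ _).trans ?_)
  exact Nat.add_le_add_left card_biUnion_le _

/-- Replacement inequality, in terms of degrees. -/
theorem replace_deg {r : ℕ} (hr : 3 ≤ r) {H G : Finset (Finset (Fin n))} (hH : Free r H) (hG : Compatible r H G)
    (A : Finset (Fin n)) :
    H.card + A.card * G.card ≤ ex r n + ∑ a ∈ A, (link H a).card + A.card * (A.card * n) := by
  have h1 := replace hr hH hG A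
  have h2 := touch_le (F := H) A
  have h3 := touch_le (F := G) A
  have h4 : ∑ a ∈ A, (H.filter fun e => a ∈ e).card = ∑ a ∈ A, (link H a).card :=
    sum_congr rfl fun a _ => card_edges_at hH.1 a
  have h5 : ∑ a ∈ A, (G.filter fun e => a ∈ e).card ≤ A.card * n := by
    refine (sum_le_sum fun a _ => card_at_le hG.1 a).trans ?_
    rw [sum_const, smul_eq_mul]
  rw [h4] at h2
  have h6 : A.card * G.card ≤ A.card * ((G.filter fun p => Disjoint p A).card + A.card * n) :=
    Nat.mul_le_mul_left _ (h3.trans (Nat.add_le_add_left h5 _))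
  rw [Nat.mul_add] at h6
  omega

/-- In an extremal 3-graph every link is a largest compatible graph on the other vertices. -/
theorem exact_link {r : ℕ} (hr : 3 ≤ r) {H G : Finset (Finset (Fin n))} (hH : Free r H) (he : H.card = ex r n)
    (hG : Compatible r H G) (u : Fin n) : (G.filter fun p => u ∉ p).card ≤ (link H u).card := by
  have h1 := replace hr hH hG {u}
  rw [card_singleton, one_mul, ← he] at h1
  have h2 : (H.filter fun e => Disjoint e {u}) = H.filter fun e => ¬ u ∈ e := by
    refine filter_congr fun e _ => ?_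
    simp
  have h3 : (G.filter fun e => Disjoint e {u}) = G.filter fun e => u ∉ e := by
    refine filter_congr fun e _ => ?_
    simp
  rw [h2, h3] at h1
  have h4 := card_filter_add_card_filter_not (s := H) (fun e => u ∈ e)
  have h5 := card_edges_at hH.1 u
  omega

theorem exact_bound {r : ℕ} (hr : 3 ≤ r) {H G : Finset (Finset (Fin n))} (hH : Free r H) (he : H.card = ex r n)
    (hG : Compatible r H G) (u : Fin n) : G.card ≤ (link H u).card + n := by
  have h1 := exact_link hr hH he hG u
  have h2 := card_at_le hG.1 u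
  have h4 := card_filter_add_card_filter_not (s := G) (fun e => u ∈ e)
  omega

theorem card_link_le (H : Finset (Finset (Fin n))) (u : Fin n) : ((link H u).card : ℝ) ≤ (n : ℝ) ^ 2 / 2 := by
  have h1 : (link H u).card ≤ n.choose 2 := by
    refine (card_filter_le _ _).trans ?_
    rw [card_powersetCard, card_univ, Fintype.card_fin]
  have h2 : ((n.choose 2 : ℕ) : ℝ) = (n : ℝ) * (n - 1) / 2 := Nat.cast_choose_two ℝ n
  have h3 : ((link H u).card : ℝ) ≤ (n.choose 2 : ℕ) := by exact_mod_cast h1
  rw [h2] at h3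
  have h4 : (0 : ℝ) ≤ n := by positivity
  nlinarith

/-- From a bound for compatible graphs to a bound for admissible sets. -/
theorem from_bound {r : ℕ} (hr : 3 ≤ r) {H : Finset (Finset (Fin n))} (hH : Free r H) {u : Fin n} {D : ℝ}
    (hM : ∀ G, Compatible r H G → (G.card : ℝ) ≤ (link H u).card + D)
    {W : Fin n → Finset (Fin n)} (hW : ∀ v, v ≠ u → Admissible r H u v (W v)) {t : ℝ} (h0 : 0 < t)
    (h1 : t ≤ 1 / 2) (hD : D ≤ t ^ 2 * (n : ℝ) ^ 2) :
    ∑ v ∈ univ.erase u, ((W v).card : ℝ) ≤ 2 * ((link H u).card : ℝ) + 3 * t * (n : ℝ) ^ 2 := by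
  have h2 := averaged hr hH hM hW h0.le (by linarith)
  have h3 := card_link_le H u
  set d : ℝ := ((link H u).card : ℝ) with hd
  set s : ℝ := ∑ v ∈ univ.erase u, ((W v).card : ℝ) with hs
  by_contra hcon
  push Not at hcon
  have h4 : t * (1 - t) * (2 * d + 3 * t * (n : ℝ) ^ 2) < t * (1 - t) * s :=
    mul_lt_mul_of_pos_left hcon (mul_pos h0 (by linarith))
  have h5 : (0 : ℝ) ≤ (n : ℝ) ^ 2 := by positivity
  have h6 : t ^ 2 * d ≤ t ^ 2 * ((n : ℝ) ^ 2 / 2) := mul_le_mul_of_nonneg_left h3 (by positivity)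
  have h7 : t * (1 - t) * (3 * t * (n : ℝ) ^ 2) ≥ t ^ 2 * (3 / 2 * (n : ℝ) ^ 2) := by
    have : 0 ≤ t ^ 2 * (n : ℝ) ^ 2 * (1 / 2 - t) := mul_nonneg (by positivity) (by linarith)
    nlinarith
  nlinarith

/-- the codegree sets are admissible -/
theorem admissible_nbr {r : ℕ} {H : Finset (Finset (Fin n))} (hH : Free r H) {u v : Fin n} (huv : v ≠ u) :
    Admissible r H u v (nbr H u v) := by
  refine ⟨by simp [nbr], by simp [nbr], fun S hS hc => ?_⟩
  by_contra hcon
  push Not at hcon
  obtain ⟨h2, h3⟩ := hcon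
  have huS : u ∉ S := fun h => (mem_nbr.1 (hS h)).1 rfl
  have hvS : v ∉ S := fun h => (mem_nbr.1 (hS h)).2.1 rfl
  obtain ⟨e, he, hec, heH⟩ := hH.2 (insert u (insert v S))
    (by rw [card_insert_of_notMem (by simp [huS, huv.symm]), card_insert_of_notMem hvS]; omega)
  apply heH
  by_cases hue : u ∈ e
  · by_cases hve : v ∈ e
    · obtain ⟨w, hw⟩ : ∃ w, (e.erase u).erase v = {w} := by
        rw [← card_eq_one, card_erase_of_mem (by rw [mem_erase]; exact ⟨huv, hve⟩), card_erase_of_mem hue, hec]
      have hwe : w ∈ (e.erase u).erase v := by rw [hw]; simp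
      rw [mem_erase, mem_erase] at hwe
      have hwS : w ∈ S := by
        have := he hwe.2.2
        simp only [mem_insert] at this
        rcases this with h | h | h
        · exact absurd h hwe.2.1
        · exact absurd h hwe.1
        · exact h
      have h4 := (mem_nbr.1 (hS hwS)).2.2
      have h5 : e = {u, v, w} := by
        rw [← insert_erase hue, ← insert_erase (show v ∈ e.erase u by rw [mem_erase]; exact ⟨huv, hve⟩), hw]
      rw [h5]; exact h4
    · have h4 : e.erase u ⊆ S := by
        intro x hx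
        rw [mem_erase] at hx
        have := he hx.2
        simp only [mem_insert] at this
        rcases this with h | h | h
        · exact absurd h hx.1
        · exact absurd (h ▸ hx.2) hve
        · exact h
      have h5 := (h2 (e.erase u) h4 (by rw [card_erase_of_mem hue, hec])).1
      rwa [insert_erase hue] at h5
  · by_cases hve : v ∈ e
    · have h4 : e.erase v ⊆ S := by
        intro x hx
        rw [mem_erase] at hx
        have := he hx.2
        simp only [mem_insert] at this
        rcases this with h | h | h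
        · exact absurd (h ▸ hx.2) hue
        · exact absurd h hx.1
        · exact h
      have h5 := (h2 (e.erase v) h4 (by rw [card_erase_of_mem hve, hec])).2
      rwa [insert_erase hve] at h5
    · have h4 : e ⊆ S := by
        intro x hx
        have := he hx
        simp only [mem_insert] at this
        rcases this with h | h | h
        · exact absurd (h ▸ hx) hue
        · exact absurd (h ▸ hx) hve
        · exact h
      exact h3 e h4 hec

/-- The codegrees of `u` sum up to twice its degree. -/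
theorem sum_nbr {H : Finset (Finset (Fin n))} (u : Fin n) :
    ∑ v ∈ univ.erase u, (nbr H u v).card = 2 * (link H u).card := by
  have h1 : ∀ v ∈ univ.erase u, (nbr H u v).card = ((link H u).filter fun p => v ∈ p).card := by
    intro v hv
    rw [mem_erase] at hv
    have h2 : (link H u).filter (fun p => v ∈ p) = (nbr H u v).image fun w => ({v, w} : Finset (Fin n)) := by
      ext p
      rw [mem_filter, mem_link, mem_image]
      constructor
      · rintro ⟨⟨hc, hu, hp⟩, hvp⟩
        obtain ⟨w, hw⟩ : ∃ w, p.erase v = {w} := by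
          rw [← card_eq_one, card_erase_of_mem hvp, hc]
        have hwp : w ∈ p.erase v := by rw [hw]; simp
        have hpe : p = {v, w} := by rw [← insert_erase hvp, hw]
        rw [mem_erase] at hwp
        refine ⟨w, mem_nbr.2 ⟨fun h => hu (h ▸ hwp.2), hwp.1, ?_⟩, hpe.symm⟩
        rw [← hpe]
        exact hp
      · rintro ⟨w, hw, rfl⟩
        rw [mem_nbr] at hw
        refine ⟨⟨card_pair (Ne.symm hw.2.1), ?_, hw.2.2⟩, by simp⟩
        simp only [mem_insert, mem_singleton, not_or]
        exact ⟨Ne.symm hv.1, Ne.symm hw.1⟩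
    rw [h2, card_image_of_injOn]
    intro a ha b hb hab
    simp only at hab
    rw [mem_coe, mem_nbr] at ha hb
    rcases pair_eq (Ne.symm hb.2.1) hab with h | h
    · exact h.2
    · exact absurd h.2 ha.2.1
  rw [sum_congr rfl h1]
  have h2 : ∀ v, ((link H u).filter fun p => v ∈ p).card = ∑ p ∈ link H u, if v ∈ p then 1 else 0 := fun v =>
    card_filter _ _
  simp_rw [h2]
  rw [sum_comm]
  have h3 : ∀ p ∈ link H u, (∑ v ∈ univ.erase u, if v ∈ p then 1 else 0) = 2 := by
    intro p hp
    rw [mem_link] at hp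
    rw [← card_filter, ← hp.1]
    congr 1
    ext v
    rw [mem_filter, mem_erase]
    constructor
    · exact fun h => h.2
    · exact fun h => ⟨⟨fun h' => hp.2.1 (h' ▸ h), mem_univ v⟩, h⟩
  rw [sum_congr rfl h3, sum_const, smul_eq_mul, mul_comm]

/-- **Extremal 3-graphs.** -/
theorem exact_main {r : ℕ} (hr : 3 ≤ r) {H : Finset (Finset (Fin n))} (hH : Free r H) (he : H.card = ex r n)
    (u : Fin n) {W : Fin n → Finset (Fin n)} (hW : ∀ v, v ≠ u → Admissible r H u v (W v)) :
    ∑ v ∈ univ.erase u, ((W v).card : ℝ) ≤ 2 * ((link H u).card : ℝ) + 3 * (n : ℝ) * √(n : ℝ) := by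
  have hn : 0 < n := u.pos
  rcases Nat.lt_or_ge n 4 with h4 | h4
  · have h1 : ∀ v ∈ univ.erase u, ((W v).card : ℝ) ≤ 1 := by
      intro v hv
      rw [mem_erase] at hv
      have h2 := hW v hv.1
      have h3 : W v ⊆ (univ.erase u).erase v := by
        intro x hx
        rw [mem_erase, mem_erase]
        exact ⟨fun h => h2.2.1 (h ▸ hx), fun h => h2.1 (h ▸ hx), mem_univ x⟩
      have h5 := card_le_card h3
      rw [card_erase_of_mem (by rw [mem_erase]; exact ⟨hv.1, mem_univ v⟩), card_erase_of_mem (mem_univ u), card_univ,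
        Fintype.card_fin] at h5
      have h6 : (W v).card ≤ 1 := by omega
      exact_mod_cast h6
    have h2 := sum_le_sum h1
    rw [sum_const, card_erase_of_mem (mem_univ u), card_univ, Fintype.card_fin, nsmul_eq_mul, mul_one] at h2
    have h3 : ((n - 1 : ℕ) : ℝ) ≤ n := by exact_mod_cast Nat.sub_le n 1
    have h5 : (1 : ℝ) ≤ √(n : ℝ) := by
      rw [Real.one_le_sqrt]; exact_mod_cast hn
    have h6 : (0 : ℝ) ≤ (link H u).card := by positivity
    have h7 : (0 : ℝ) < n := by exact_mod_cast hn
    nlinarith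
  · have hn' : (0 : ℝ) < n := by exact_mod_cast hn
    have hs : (0 : ℝ) < √(n : ℝ) := Real.sqrt_pos.2 hn'
    have hss : √(n : ℝ) * √(n : ℝ) = n := Real.mul_self_sqrt hn'.le
    have h2s : (2 : ℝ) ≤ √(n : ℝ) := by
      rw [show (2 : ℝ) = √4 by rw [show (4 : ℝ) = 2 ^ 2 by norm_num, Real.sqrt_sq (by norm_num)]]
      exact Real.sqrt_le_sqrt (by exact_mod_cast h4)
    have h1 := from_bound (D := (n : ℝ)) hr hH (u := u) (fun G hG => by
      have := exact_bound hr hH he hG u
      exact_mod_cast this) hW (t := 1 / √(n : ℝ)) (by positivity)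
      (by rw [div_le_div_iff₀ hs (by norm_num)]; linarith)
      (by
        rw [div_pow, one_pow, sq (√(n : ℝ)), hss]
        rw [sq, ← mul_assoc, div_mul_cancel₀ _ hn'.ne', one_mul])
    have h3 : 3 * (1 / √(n : ℝ)) * (n : ℝ) ^ 2 = 3 * (n : ℝ) * √(n : ℝ) := by
      field_simp
      rw [sq (√(n : ℝ)), hss]
    rw [h3] at h1
    exact h1

/-- **Nearly extremal 3-graphs.** -/
theorem near_main {r : ℕ} (hr : 3 ≤ r) {θ : ℝ} (h0 : 0 < θ) (h1 : θ ≤ 1 / 4) (hn : 4 / θ ≤ n)
    {H : Finset (Finset (Fin n))} (hH : Free r H) (he : (ex r n : ℝ) ≤ H.card + θ ^ 2 * (n : ℝ) ^ 3 / 8) :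
    ∃ B : Finset (Fin n), (B.card : ℝ) ≤ θ * n ∧ ∀ u ∉ B,
      (∀ G, Compatible r H G → (G.card : ℝ) ≤ (link H u).card + θ * (n : ℝ) ^ 2) ∧
      (∀ W : Fin n → Finset (Fin n), (∀ v, v ≠ u → Admissible r H u v (W v)) →
        ∑ v ∈ univ.erase u, ((W v).card : ℝ) ≤ 2 * ((link H u).card : ℝ) + 3 * √θ * (n : ℝ) ^ 2) := by
  classical
  have hn0 : (0 : ℝ) < n := lt_of_lt_of_le (by positivity) hn
  obtain ⟨G, hG, hGm⟩ : ∃ G, Compatible r H G ∧ ∀ G', Compatible r H G' → G'.card ≤ G.card := by
    have hne : ((univ : Finset (Finset (Finset (Fin n)))).filter fun G => Compatible r H G).Nonempty :=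
      ⟨link H ⟨0, by exact_mod_cast hn0⟩, by rw [mem_filter]; exact ⟨mem_univ _, compatible_link hr hH _⟩⟩
    obtain ⟨G, hG, hmax⟩ := exists_max_image _ (fun G : Finset (Finset (Fin n)) => G.card) hne
    rw [mem_filter] at hG
    exact ⟨G, hG.2, fun G' hG' => hmax G' (by rw [mem_filter]; exact ⟨mem_univ _, hG'⟩)⟩
  set B : Finset (Fin n) := univ.filter fun u => ((link H u).card : ℝ) + θ * (n : ℝ) ^ 2 < G.card with hB
  have hBc : (B.card : ℝ) ≤ θ * n := by
    by_contra hcon
    push Not at hcon
    -- choose `k` bad vertices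
    set k : ℕ := ⌈θ * n / 4⌉₊ with hk
    have hk1 : θ * n / 4 ≤ k := Nat.le_ceil _
    have h4θ : 4 ≤ θ * n := by
      have := (div_le_iff₀ h0).1 hn
      linarith
    have hk2 : (k : ℝ) < θ * n / 4 + 1 := Nat.ceil_lt_add_one (by positivity)
    have hk3 : (k : ℝ) ≤ θ * n / 2 := by linarith
    have hkB : k ≤ B.card := by
      have : (k : ℝ) < B.card := by linarith
      exact_mod_cast this.le
    obtain ⟨A, hA, hAk⟩ := exists_subset_card_eq hkB
    have h2 := replace_deg hr hH hG A
    rw [hAk] at h2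
    have h3 : ((H.card + k * G.card : ℕ) : ℝ) ≤ ((ex r n + ∑ a ∈ A, (link H a).card + k * (k * n) : ℕ) : ℝ) := by
      exact_mod_cast h2
    push_cast at h3
    have h4 : (∑ a ∈ A, ((link H a).card : ℝ)) ≤ k * (G.card - θ * (n : ℝ) ^ 2) := by
      have : ∀ a ∈ A, ((link H a).card : ℝ) ≤ G.card - θ * (n : ℝ) ^ 2 := by
        intro a ha
        have := (mem_filter.1 (hA ha)).2
        linarith
      refine (sum_le_sum this).trans ?_
      rw [sum_const, hAk, nsmul_eq_mul]
    have h5 : (k : ℝ) * (θ * (n : ℝ) ^ 2) ≤ θ ^ 2 * (n : ℝ) ^ 3 / 8 + k * (k * n) := by nlinarith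
    have h6 : (k : ℝ) * (k * n) ≤ k * (θ * n / 2 * n) :=
      mul_le_mul_of_nonneg_left (mul_le_mul_of_nonneg_right hk3 hn0.le) (by positivity)
    have h7 : θ * n / 4 * (θ * (n : ℝ) ^ 2 / 2) ≤ k * (θ * (n : ℝ) ^ 2 / 2) :=
      mul_le_mul_of_nonneg_right hk1 (by positivity)
    -- equality case excluded by a strict inequality
    have h8 : (∑ a ∈ A, ((link H a).card : ℝ)) < k * (G.card - θ * (n : ℝ) ^ 2) := by
      have hAne : A.Nonempty := by
        rw [← card_pos, hAk]
        have : (0 : ℝ) < k := lt_of_lt_of_le (by positivity) hk1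
        exact_mod_cast this
      have : ∀ a ∈ A, ((link H a).card : ℝ) < G.card - θ * (n : ℝ) ^ 2 := by
        intro a ha
        have := (mem_filter.1 (hA ha)).2
        linarith
      refine (sum_lt_sum_of_nonempty hAne this).trans_eq ?_
      rw [sum_const, hAk, nsmul_eq_mul]
    nlinarith
  refine ⟨B, hBc, fun u hu => ?_⟩
  have hub : (G.card : ℝ) ≤ (link H u).card + θ * (n : ℝ) ^ 2 := by
    by_contra hcon
    push Not at hcon
    exact hu (by rw [hB, mem_filter]; exact ⟨mem_univ u, hcon⟩)
  have hall : ∀ G', Compatible r H G' → (G'.card : ℝ) ≤ (link H u).card + θ * (n : ℝ) ^ 2 := fun G' hG' =>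
    le_trans (by exact_mod_cast hGm G' hG') hub
  refine ⟨hall, fun W hW => ?_⟩
  have hsq : √θ ^ 2 = θ := Real.sq_sqrt h0.le
  refine from_bound (D := θ * (n : ℝ) ^ 2) hr hH hall hW (Real.sqrt_pos.2 h0) ?_ (by rw [hsq])
  rw [show (1 / 2 : ℝ) = √(1 / 4) by rw [show (1 / 4 : ℝ) = (1 / 2) ^ 2 by norm_num, Real.sqrt_sq (by norm_num)]]
  exact Real.sqrt_le_sqrt h1

end Pool.Agent.H70.LO
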