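import Pool.Agent.H70.LO.Deg

/-! Exchange between the links of two vertices, `r = 4`. -/

set_option autoImplicit false
open Finset

namespace Pool.Agent.H70.LO

variable {n : ℕ}

/-- the link of `u` inside `X`, the link of `v` outside `X`, and the pairs in both links -/
def hyb (H : Finset (Finset (Fin n))) (u v : Fin n) (X : Finset (Fin n)) : Finset (Finset (Fin n)) :=
  (link H u \ link H v).filter (fun p => p ⊆ X) ∪ (link H v).filter fun p => Disjoint p X ∨ p ∈ link H u

theorem mem_hyb {H : Finset (Finset (Fin n))} {u v : Fin n} {X p : Finset (Fin n)} :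
    p ∈ hyb H u v X ↔ (p ∈ link H u ∧ p ∉ link H v ∧ p ⊆ X) ∨ (p ∈ link H v ∧ (Disjoint p X ∨ p ∈ link H u)) := by
  unfold hyb
  simp only [mem_union, mem_filter, mem_sdiff]
  tauto

theorem compatible_hyb {H : Finset (Finset (Fin n))} (hH : Free 4 H) (u v : Fin n) (X : Finset (Fin n)) :
    Compatible 4 H (hyb H u v X) := by
  constructor
  · intro p hp
    rcases mem_hyb.1 hp with h | h
    · exact (mem_link.1 h.1).1
    · exact (mem_link.1 h.1).1
  · intro S hS
    by_contra hcon
    push Not at hcon
    obtain ⟨h2, h3⟩ := hcon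
    have hS3 : S.card = 3 := by omega
    rcases Nat.lt_or_ge (S ∩ X).card 2 with hc | hc
    · rcases (compatible_link (by norm_num) hH v).2 S hS with ⟨p, hp, hpc, hpv⟩ | ⟨e, he, hec, heH⟩
      · rcases mem_hyb.1 (h2 p hp hpc) with h | h
        · have : p ⊆ S ∩ X := subset_inter hp h.2.2
          have := card_le_card this
          omega
        · exact hpv h.1
      · exact heH (h3 e he hec)
    · rcases (compatible_link (by norm_num) hH u).2 S hS with ⟨p, hp, hpc, hpu⟩ | ⟨e, he, hec, heH⟩
      · rcases mem_hyb.1 (h2 p hp hpc) with h | h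
        · exact hpu h.1
        · rcases h.2 with hd | hd
          · have h4 : Disjoint p (S ∩ X) := hd.mono_right inter_subset_right
            have h5 : p ∪ (S ∩ X) ⊆ S := union_subset hp inter_subset_left
            have h6 := card_le_card h5
            rw [card_union_of_disjoint h4] at h6
            omega
          · exact hpu hd
      · exact heH (h3 e he hec)

/-- the exchange inequality -/
theorem exchange_ineq {H : Finset (Finset (Fin n))} (hH : Free 4 H) {u v : Fin n} {D : ℕ}
    (hM : ∀ G, Compatible 4 H G → G.card ≤ (link H v).card + D) (X : Finset (Fin n)) :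
    ((link H u \ link H v).filter fun p => p ⊆ X).card
      ≤ ((link H v \ link H u).filter fun p => ¬ Disjoint p X).card + D := by
  have h1 := hM _ (compatible_hyb hH u v X)
  have h2 : (hyb H u v X).card = ((link H u \ link H v).filter fun p => p ⊆ X).card
      + ((link H v).filter fun p => Disjoint p X ∨ p ∈ link H u).card := by
    unfold hyb
    rw [card_union_of_disjoint]
    rw [disjoint_left]
    intro p hp hp'
    rw [mem_filter, mem_sdiff] at hp
    rw [mem_filter] at hp'
    exact hp.1.2 hp'.1
  have h3 := card_filter_add_card_filter_not (s := link H v) (fun p => Disjoint p X ∨ p ∈ link H u)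
  have h4 : (link H v).filter (fun p => ¬ (Disjoint p X ∨ p ∈ link H u))
      = (link H v \ link H u).filter fun p => ¬ Disjoint p X := by
    ext p
    simp only [mem_filter, mem_sdiff]
    tauto
  rw [h4] at h3
  omega

/-- the exchange matching -/
theorem exchange {H : Finset (Finset (Fin n))} (hH : Free 4 H) {u v : Fin n} {D : ℕ}
    (hM : ∀ G, Compatible 4 H G → G.card ≤ (link H v).card + D) :
    ∃ F ⊆ link H u \ link H v, F.card ≤ D ∧ ∃ f : Finset (Fin n) → Finset (Fin n),
      Set.InjOn f ((link H u \ link H v) \ F : Finset (Finset (Fin n))) ∧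
      ∀ p ∈ (link H u \ link H v) \ F, f p ∈ link H v \ link H u ∧ ¬ Disjoint p (f p) := by
  classical
  set A := link H u \ link H v with hA
  set C := link H v \ link H u with hC
  let t : A → Finset (Finset (Fin n) ⊕ Fin D) := fun p =>
    (C.filter fun q => ¬ Disjoint (p : Finset (Fin n)) q).disjSum univ
  have hall : ∀ s : Finset A, s.card ≤ (s.biUnion t).card := by
    intro s
    rcases s.eq_empty_or_nonempty with rfl | hs
    · simp
    set X : Finset (Fin n) := s.biUnion fun p => (p : Finset (Fin n)) with hX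
    have h1 : s.card ≤ (A.filter fun p => p ⊆ X).card := by
      rw [← card_map (Function.Embedding.subtype _)]
      refine card_le_card ?_
      intro p hp
      rw [mem_map] at hp
      obtain ⟨q, hq, rfl⟩ := hp
      rw [mem_filter]
      exact ⟨q.2, fun x hx => mem_biUnion.2 ⟨q, hq, hx⟩⟩
    have h2 : (A.filter fun p => p ⊆ X).card ≤ (C.filter fun p => ¬ Disjoint p X).card + D :=
      exchange_ineq hH hM X
    have h3 : ((C.filter fun p => ¬ Disjoint p X).disjSum (univ : Finset (Fin D))) ⊆ s.biUnion t := by
      intro z hz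
      rw [mem_disjSum] at hz
      rcases hz with ⟨q, hq, rfl⟩ | ⟨i, hi, rfl⟩
      · rw [mem_filter, not_disjoint_iff] at hq
        obtain ⟨hqC, x, hxq, hxX⟩ := hq
        rw [hX, mem_biUnion] at hxX
        obtain ⟨p, hp, hxp⟩ := hxX
        rw [mem_biUnion]
        refine ⟨p, hp, ?_⟩
        rw [inl_mem_disjSum, mem_filter]
        exact ⟨hqC, not_disjoint_iff.2 ⟨x, hxp, hxq⟩⟩
      · obtain ⟨p, hp⟩ := hs
        rw [mem_biUnion]
        exact ⟨p, hp, by rw [inr_mem_disjSum]; exact mem_univ _⟩
    have h4 := card_le_card h3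
    rw [card_disjSum, card_univ, Fintype.card_fin] at h4
    omega
  obtain ⟨g, hg, hgt⟩ := (Finset.all_card_le_biUnion_card_iff_exists_injective t).1 hall
  let bad : Finset A := univ.filter fun p => (g p).isRight
  refine ⟨bad.map (Function.Embedding.subtype _), ?_, ?_, ?_⟩
  · intro p hp
    rw [mem_map] at hp
    obtain ⟨q, _, rfl⟩ := hp
    exact q.2
  · rw [card_map]
    have h5 : bad.card = (bad.image g).card := (card_image_of_injective _ hg).symm
    have h6 : bad.image g ⊆ (univ : Finset (Fin D)).map ⟨Sum.inr, Sum.inr_injective⟩ := by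
      intro z hz
      rw [mem_image] at hz
      obtain ⟨p, hp, rfl⟩ := hz
      rw [mem_filter] at hp
      obtain ⟨i, hi⟩ := Sum.isRight_iff.1 hp.2
      rw [mem_map]
      exact ⟨i, mem_univ i, hi.symm⟩
    have h7 := card_le_card h6
    rw [card_map, card_univ, Fintype.card_fin] at h7
    omega
  · have hkey : ∀ p (hp : p ∈ A), p ∉ bad.map (Function.Embedding.subtype _) →
        ∃ q, g ⟨p, hp⟩ = Sum.inl q := by
      intro p hp hnb
      rcases h : g ⟨p, hp⟩ with q | i
      · exact ⟨q, rfl⟩
      · exfalso
        apply hnb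
        rw [mem_map]
        exact ⟨⟨p, hp⟩, by rw [mem_filter]; exact ⟨mem_univ _, by rw [h]; rfl⟩, rfl⟩
    refine ⟨fun p => if hp : p ∈ A then (g ⟨p, hp⟩).elim id (fun _ => ∅) else ∅, ?_, ?_⟩
    · intro p hp q hq hpq
      rw [mem_coe, mem_sdiff] at hp hq
      obtain ⟨p', hp'⟩ := hkey p hp.1 hp.2
      obtain ⟨q', hq'⟩ := hkey q hq.1 hq.2
      simp only [dif_pos hp.1, dif_pos hq.1, hp', hq', Sum.elim_inl, id_eq] at hpq
      have h8 : g ⟨p, hp.1⟩ = g ⟨q, hq.1⟩ := by rw [hp', hq', hpq]
      exact congrArg Subtype.val (hg h8)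
    · intro p hp
      rw [mem_sdiff] at hp
      obtain ⟨p', hp'⟩ := hkey p hp.1 hp.2
      simp only [dif_pos hp.1, hp', Sum.elim_inl, id_eq]
      have h9 := hgt ⟨p, hp.1⟩
      rw [hp'] at h9
      have h10 := inl_mem_disjSum.1 h9
      rw [mem_filter] at h10
      exact h10

end Pool.Agent.H70.LO
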