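import Pool.Agent.H70.LO.Exch

/-! Exchange between links: extremal and nearly extremal 3-graphs. -/

set_option autoImplicit false
open Finset

namespace Pool.Agent.H70.LO

variable {n : ℕ}

theorem exch_exact {H : Finset (Finset (Fin n))} (hH : Free 4 H) (he : H.card = ex 4 n) (u v : Fin n) :
    (∀ X : Finset (Fin n), ((link H u \ link H v).filter fun p => p ⊆ X).card
      ≤ ((link H v \ link H u).filter fun p => ¬ Disjoint p X).card + n) ∧
    ∃ F ⊆ link H u \ link H v, F.card ≤ n ∧ ∃ f : Finset (Fin n) → Finset (Fin n),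
      Set.InjOn f ((link H u \ link H v) \ F : Finset (Finset (Fin n))) ∧
      ∀ p ∈ (link H u \ link H v) \ F, f p ∈ link H v \ link H u ∧ ¬ Disjoint p (f p) := by
  have hM : ∀ G, Compatible 4 H G → G.card ≤ (link H v).card + n := fun G hG =>
    exact_bound (by norm_num) hH he hG v
  exact ⟨fun X => exchange_ineq hH hM X, exchange hH hM⟩

theorem exch_near {θ : ℝ} (h0 : 0 < θ) (h1 : θ ≤ 1 / 4) (hn : 4 / θ ≤ n)
    {H : Finset (Finset (Fin n))} (hH : Free 4 H) (he : (ex 4 n : ℝ) ≤ H.card + θ ^ 2 * (n : ℝ) ^ 3 / 8) :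
    ∃ B : Finset (Fin n), (B.card : ℝ) ≤ θ * n ∧ ∀ v ∉ B, ∀ u : Fin n,
      ∃ F ⊆ link H u \ link H v, (F.card : ℝ) ≤ θ * (n : ℝ) ^ 2 ∧ ∃ f : Finset (Fin n) → Finset (Fin n),
        Set.InjOn f ((link H u \ link H v) \ F : Finset (Finset (Fin n))) ∧
        ∀ p ∈ (link H u \ link H v) \ F, f p ∈ link H v \ link H u ∧ ¬ Disjoint p (f p) := by
  obtain ⟨B, hB, hmain⟩ := near_main (r := 4) (by norm_num) h0 h1 hn hH he
  refine ⟨B, hB, fun v hv u => ?_⟩
  have hM : ∀ G, Compatible 4 H G → G.card ≤ (link H v).card + ⌊θ * (n : ℝ) ^ 2⌋₊ := by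
    intro G hG
    have h2 := (hmain v hv).1 G hG
    rcases Nat.le_total G.card (link H v).card with h3 | h3
    · omega
    · have h4 : ((G.card - (link H v).card : ℕ) : ℝ) ≤ θ * (n : ℝ) ^ 2 := by
        rw [Nat.cast_sub h3]; linarith
      have := Nat.le_floor h4
      omega
  obtain ⟨F, hF, hFc, hf⟩ := exchange hH (u := u) hM
  refine ⟨F, hF, ?_, hf⟩
  have h5 : (F.card : ℝ) ≤ (⌊θ * (n : ℝ) ^ 2⌋₊ : ℝ) := by exact_mod_cast hFc
  exact h5.trans (Nat.floor_le (by positivity))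

end Pool.Agent.H70.LO
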