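import Pool.Agent.H70.LO.Deg

/-! Codegrees are at least the sizes of suitable sets. -/

set_option autoImplicit false
open Finset

namespace Pool.Agent.H70.LO

variable {n : ℕ}

theorem indep_main {r : ℕ} (hr : 3 ≤ r) {H : Finset (Finset (Fin n))} (hH : Free r H) (he : H.card = ex r n)
    {u : Fin n} {I : Finset (Fin n)} (hu : u ∉ I)
    (hI : ∀ S ⊆ I, S.card + 2 = r → ∃ e ⊆ insert u S, e.card = 3 ∧ e ∉ H) :
    ∑ v ∈ univ.erase u, max ((I.card : ℝ) - 1 - (nbr H u v).card) 0 ≤ 3 * (n : ℝ) * √(n : ℝ) := by
  classical
  set W : Fin n → Finset (Fin n) := fun v => if (nbr H u v).card < (I.erase v).card then I.erase v else nbr H u v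
    with hW
  have hadm : ∀ v, v ≠ u → Admissible r H u v (W v) := by
    intro v hv
    rw [hW]
    simp only
    split_ifs with h
    · refine ⟨fun h' => hu (mem_of_mem_erase h'), by simp, fun S hS hc => ?_⟩
      have hSI : S ⊆ I := hS.trans (erase_subset _ _)
      obtain ⟨e, he', hec, heH⟩ := hI S hSI hc
      by_cases hue : u ∈ e
      · left
        refine ⟨e.erase u, ?_, by rw [card_erase_of_mem hue, hec], Or.inl (by rw [insert_erase hue]; exact heH)⟩
        intro x hx
        rw [mem_erase] at hx
        have := he' hx.2
        rw [mem_insert] at this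
        tauto
      · right
        refine ⟨e, ?_, hec, heH⟩
        intro x hx
        have := he' hx
        rw [mem_insert] at this
        rcases this with h' | h'
        · exact absurd (h' ▸ hx) hue
        · exact h'
    · exact admissible_nbr hH hv
  have h1 := exact_main hr hH he u hadm
  have h2 : (∑ v ∈ univ.erase u, ((nbr H u v).card : ℝ)) = 2 * ((link H u).card : ℝ) := by
    exact_mod_cast sum_nbr (H := H) u
  have h3 : ∀ v ∈ univ.erase u, max ((I.card : ℝ) - 1 - (nbr H u v).card) 0 + (nbr H u v).card ≤ (W v).card := by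
    intro v _
    have h4 : (I.card : ℝ) - 1 ≤ (I.erase v).card := by
      have := pred_card_le_card_erase (s := I) (a := v)
      have h5 : I.card ≤ (I.erase v).card + 1 := by omega
      have h6 : (I.card : ℝ) ≤ (I.erase v).card + 1 := by exact_mod_cast h5
      linarith
    rw [hW]
    simp only
    split_ifs with h
    · have h5 : ((nbr H u v).card : ℝ) ≤ (I.erase v).card := by exact_mod_cast h.le
      rcases max_cases ((I.card : ℝ) - 1 - (nbr H u v).card) 0 with h6 | h6 <;> rw [h6.1] <;> linarith
    · push Not at h
      have h5 : ((I.erase v).card : ℝ) ≤ (nbr H u v).card := by exact_mod_cast h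
      rw [max_eq_right (by linarith)]
      linarith
  have h4 := sum_le_sum h3
  rw [sum_add_distrib, h2] at h4
  linarith

end Pool.Agent.H70.LO
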