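import Pool.Agent.H70.LO.Base

/-! A random set of vertices gets new neighbourhoods in a link. -/

set_option autoImplicit false
open Finset

namespace Pool.Agent.H70.LO

variable {n : ℕ}

/-- the weight of a set of vertices if every vertex is chosen with probability `t` -/
noncomputable def wt (t : ℝ) (f : Fin n → Bool) : ℝ := ∏ v, (if f v then t else 1 - t)

theorem wt_nonneg {t : ℝ} (h0 : 0 ≤ t) (h1 : t ≤ 1) (f : Fin n → Bool) : 0 ≤ wt t f :=
  prod_nonneg fun v _ => by split_ifs <;> linarith

theorem wt_sum (t : ℝ) (B T : Finset (Fin n)) (hBT : Disjoint B T) :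
    ∑ f : Fin n → Bool, wt t f * (if (∀ v ∈ B, f v = true) ∧ ∀ v ∈ T, f v = false then 1 else 0)
      = t ^ B.card * (1 - t) ^ T.card := by
  classical
  have h1 : ∀ f : Fin n → Bool,
      wt t f * (if (∀ v ∈ B, f v = true) ∧ ∀ v ∈ T, f v = false then 1 else 0)
        = ∏ v, ((if f v then t else 1 - t) * (if v ∈ B then (if f v then 1 else 0) else 1)
          * (if v ∈ T then (if f v then 0 else 1) else 1)) := by
    intro f
    by_cases h : (∀ v ∈ B, f v = true) ∧ ∀ v ∈ T, f v = false
    · rw [if_pos h, mul_one]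
      unfold wt
      refine prod_congr rfl fun v _ => ?_
      by_cases hB : v ∈ B
      · have hT : v ∉ T := disjoint_left.1 hBT hB
        simp [hB, hT, h.1 v hB]
      · by_cases hT : v ∈ T
        · simp [hB, hT, h.2 v hT]
        · simp [hB, hT]
    · rw [if_neg h, mul_zero]
      symm
      rw [not_and_or] at h
      rcases h with h | h
      · push Not at h
        obtain ⟨v, hv, hf⟩ := h
        refine prod_eq_zero (mem_univ v) ?_
        have : f v = false := by simpa using hf
        simp [hv, this]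
      · push Not at h
        obtain ⟨v, hv, hf⟩ := h
        refine prod_eq_zero (mem_univ v) ?_
        have : f v = true := by simpa using hf
        simp [hv, this]
  rw [sum_congr rfl fun f _ => h1 f]
  have h2 := (Finset.prod_univ_sum (fun _ : Fin n => (univ : Finset Bool))
    (fun v b => ((if b then t else 1 - t) * (if v ∈ B then (if b then 1 else 0) else 1)
          * (if v ∈ T then (if b then 0 else 1) else 1)))).symm
  rw [Fintype.piFinset_univ] at h2
  rw [h2]
  have h3 : ∀ v : Fin n, (∑ b : Bool, ((if b then t else 1 - t) * (if v ∈ B then (if b then 1 else 0) else 1)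
          * (if v ∈ T then (if b then 0 else 1) else 1)) : ℝ)
        = (if v ∈ B then t else 1) * (if v ∈ T then 1 - t else 1) := by
    intro v
    rw [Fintype.sum_bool]
    by_cases hB : v ∈ B
    · have hT : v ∉ T := disjoint_left.1 hBT hB
      simp [hB, hT]
    · by_cases hT : v ∈ T
      · simp [hB, hT]
      · simp [hB, hT]
  rw [prod_congr rfl fun v _ => h3 v, prod_mul_distrib, prod_ite_mem, prod_ite_mem]
  simp

theorem wt_total (t : ℝ) : ∑ f : Fin n → Bool, wt t f = 1 := by
  have := wt_sum (n := n) t ∅ ∅ (disjoint_empty_left _)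
  simpa using this

/-- the graph in which the chosen vertices have the new neighbourhoods -/
def mod (H : Finset (Finset (Fin n))) (u : Fin n) (W : Fin n → Finset (Fin n)) (f : Fin n → Bool) :
    Finset (Finset (Fin n)) :=
  (link H u).filter (fun p => ∀ v ∈ p, f v = false) ∪
    (univ.filter fun q : Fin n × Fin n => q.1 ≠ u ∧ q.2 ∈ W q.1 ∧ f q.1 = true ∧ f q.2 = false).image
      fun q => {q.1, q.2}

theorem mem_mod {H : Finset (Finset (Fin n))} {u : Fin n} {W : Fin n → Finset (Fin n)} {f : Fin n → Bool}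
    {p : Finset (Fin n)} : p ∈ mod H u W f ↔ (p ∈ link H u ∧ ∀ v ∈ p, f v = false) ∨
      ∃ x y, x ≠ u ∧ y ∈ W x ∧ f x = true ∧ f y = false ∧ ({x, y} : Finset (Fin n)) = p := by
  unfold mod
  simp only [mem_union, mem_filter, mem_image, mem_univ, true_and, Prod.exists]
  constructor
  · rintro (h | ⟨x, y, ⟨h1, h2, h3, h4⟩, rfl⟩)
    · exact Or.inl h
    · exact Or.inr ⟨x, y, h1, h2, h3, h4, rfl⟩
  · rintro (h | ⟨x, y, h1, h2, h3, h4, rfl⟩)
    · exact Or.inl h
    · exact Or.inr ⟨x, y, ⟨h1, h2, h3, h4⟩, rfl⟩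

theorem pair_eq {x y a b : Fin n} (hab : a ≠ b) (h : ({x, y} : Finset (Fin n)) = {a, b}) :
    (x = a ∧ y = b) ∨ (x = b ∧ y = a) := by
  have hx : x ∈ ({a, b} : Finset (Fin n)) := by rw [← h]; simp
  have hy : y ∈ ({a, b} : Finset (Fin n)) := by rw [← h]; simp
  have ha : a ∈ ({x, y} : Finset (Fin n)) := by rw [h]; simp
  have hb : b ∈ ({x, y} : Finset (Fin n)) := by rw [h]; simp
  simp only [mem_insert, mem_singleton] at hx hy ha hb
  rcases hx with rfl | rfl
  · rcases hb with h1 | h1
    · exact absurd h1.symm hab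
    · exact Or.inl ⟨rfl, h1.symm⟩
  · rcases ha with h1 | h1
    · exact absurd h1 hab
    · exact Or.inr ⟨rfl, h1.symm⟩

theorem compatible_mod {r : ℕ} (hr : 3 ≤ r) {H : Finset (Finset (Fin n))} (hH : Free r H) {u : Fin n}
    {W : Fin n → Finset (Fin n)} (hW : ∀ v, v ≠ u → Admissible r H u v (W v)) (f : Fin n → Bool) :
    Compatible r H (mod H u W f) := by
  constructor
  · intro p hp
    rcases mem_mod.1 hp with h | ⟨x, y, hx, hy, hfx, hfy, rfl⟩
    · exact (mem_link.1 h.1).1
    · refine card_pair ?_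
      rintro rfl
      rw [hfx] at hfy
      exact Bool.noConfusion hfy
  · intro S hS
    by_contra hcon
    push Not at hcon
    obtain ⟨h2, h3⟩ := hcon
    have hpair : ∀ x ∈ S, ∀ y ∈ S, x ≠ y → ({x, y} : Finset (Fin n)) ∈ mod H u W f := fun x hx y hy hxy =>
      h2 _ (by intro z hz; simp only [mem_insert, mem_singleton] at hz; rcases hz with rfl | rfl <;> assumption)
        (card_pair hxy)
    have hone : ∀ x ∈ S, ∀ y ∈ S, x ≠ y → f x = true → f y = false := by
      intro x hx y hy hxy hfx
      rcases mem_mod.1 (hpair x hx y hy hxy) with h | ⟨a, b, ha, hb, hfa, hfb, hab⟩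
      · have := h.2 x (by simp)
        rw [hfx] at this
        exact Bool.noConfusion this
      · rcases pair_eq hxy hab with ⟨h4, h5⟩ | ⟨h4, h5⟩
        · rw [← h5]; exact hfb
        · rw [h5, hfx] at hfb
          exact Bool.noConfusion hfb
    by_cases hX : ∃ x ∈ S, f x = true
    · obtain ⟨x, hx, hfx⟩ := hX
      have hq : ∀ y ∈ S.erase x, x ≠ u ∧ y ∈ W x := by
        intro y hy
        rw [mem_erase] at hy
        have hxy : x ≠ y := fun h => hy.1 h.symm
        rcases mem_mod.1 (hpair x hx y hy.2 hxy) with h | ⟨a, b, ha, hb, hfa, hfb, hab⟩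
        · have := h.2 x (by simp)
          rw [hfx] at this
          exact Bool.noConfusion this
        · rcases pair_eq hxy hab with ⟨h4, h5⟩ | ⟨h4, h5⟩
          · rw [← h4, ← h5]; exact ⟨ha, hb⟩
          · rw [h5, hfx] at hfb
            exact Bool.noConfusion hfb
      have hne : (S.erase x).Nonempty := by
        rw [← card_pos, card_erase_of_mem hx]; omega
      obtain ⟨y0, hy0⟩ := hne
      have hxu : x ≠ u := (hq y0 hy0).1
      rcases (hW x hxu).2.2 (S.erase x) (fun y hy => (hq y hy).2)
        (by rw [card_erase_of_mem hx]; have := card_pos.2 ⟨x, hx⟩; omega) with ⟨p, hp, hpc, hpH⟩ | ⟨e, he, hec, heH⟩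
      · have hpS : p ⊆ S := hp.trans (erase_subset _ _)
        have hpm := h2 p hpS hpc
        have hxp : x ∉ p := fun h => (mem_erase.1 (hp h)).1 rfl
        have hpf : ∀ v ∈ p, f v = false := fun v hv =>
          hone x hx v (hpS hv) (fun h => hxp (h ▸ hv)) hfx
        have hpl : p ∈ link H u := by
          rcases mem_mod.1 hpm with h | ⟨a, b, ha, hb, hfa, hfb, hab⟩
          · exact h.1
          · have := hpf a (by rw [← hab]; simp)
            rw [hfa] at this
            exact Bool.noConfusion this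
        rcases hpH with h | h
        · exact h (mem_link.1 hpl).2.2
        · exact h (h3 (insert x p) (insert_subset hx hpS) (by rw [card_insert_of_notMem hxp, hpc]))
      · exact heH (h3 e (he.trans (erase_subset _ _)) hec)
    · push Not at hX
      have hf : ∀ x ∈ S, f x = false := fun x hx => by simpa using hX x hx
      rcases (compatible_link hr hH u).2 S hS with ⟨p, hp, hpc, hpH⟩ | ⟨e, he, hec, heH⟩
      · rcases mem_mod.1 (h2 p hp hpc) with h | ⟨a, b, ha, hb, hfa, hfb, hab⟩
        · exact hpH h.1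
        · have := hf a (hp (by rw [← hab]; simp))
          rw [hfa] at this
          exact Bool.noConfusion this
      · exact heH (h3 e he hec)

theorem card_mod {H : Finset (Finset (Fin n))} {u : Fin n} {W : Fin n → Finset (Fin n)} {f : Fin n → Bool} :
    (mod H u W f).card = ((link H u).filter fun p => ∀ v ∈ p, f v = false).card +
      (univ.filter fun q : Fin n × Fin n => q.1 ≠ u ∧ q.2 ∈ W q.1 ∧ f q.1 = true ∧ f q.2 = false).card := by
  unfold mod
  rw [card_union_of_disjoint, card_image_of_injOn]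
  · rintro ⟨a, b⟩ h1 ⟨c, d⟩ h2 h
    simp only [coe_filter, mem_univ, true_and, Set.mem_setOf_eq] at h1 h2
    simp only at h
    have hcd : c ≠ d := by
      rintro rfl
      have := h2.2.2.1
      rw [h2.2.2.2] at this
      exact Bool.noConfusion this
    rcases pair_eq hcd h with ⟨h4, h5⟩ | ⟨h4, h5⟩
    · rw [h4, h5]
    · have := h1.2.2.1
      rw [h4, h2.2.2.2] at this
      exact Bool.noConfusion this
  · rw [disjoint_left]
    intro p hp hp'
    simp only [mem_filter, mem_image, mem_univ, true_and, Prod.exists] at hp hp'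
    obtain ⟨a, b, ⟨_, _, hfa, _⟩, rfl⟩ := hp'
    have := hp.2 a (by simp)
    rw [hfa] at this
    exact Bool.noConfusion this

/-- **The averaged inequality.** -/
theorem averaged {r : ℕ} (hr : 3 ≤ r) {H : Finset (Finset (Fin n))} (hH : Free r H) {M : ℝ}
    (hM : ∀ G, Compatible r H G → (G.card : ℝ) ≤ M) {u : Fin n}
    {W : Fin n → Finset (Fin n)} (hW : ∀ v, v ≠ u → Admissible r H u v (W v)) {t : ℝ} (h0 : 0 ≤ t) (h1 : t ≤ 1) :
    (1 - t) ^ 2 * ((link H u).card : ℝ) + t * (1 - t) * ∑ v ∈ univ.erase u, ((W v).card : ℝ) ≤ M := by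
  classical
  have hA : ∑ f : Fin n → Bool, wt t f * ((mod H u W f).card : ℝ) ≤ M := by
    calc ∑ f : Fin n → Bool, wt t f * ((mod H u W f).card : ℝ) ≤ ∑ f : Fin n → Bool, wt t f * M :=
          sum_le_sum fun f _ => mul_le_mul_of_nonneg_left (hM _ (compatible_mod hr hH hW f)) (wt_nonneg h0 h1 f)
      _ = M := by rw [← sum_mul, wt_total, one_mul]
  have hB : ∀ f : Fin n → Bool, ((mod H u W f).card : ℝ) =
      (∑ p ∈ link H u, if (∀ v ∈ (∅ : Finset (Fin n)), f v = true) ∧ ∀ v ∈ p, f v = false then (1 : ℝ) else 0) +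
      ∑ q ∈ (univ.filter fun q : Fin n × Fin n => q.1 ≠ u ∧ q.2 ∈ W q.1),
        if (∀ v ∈ ({q.1} : Finset (Fin n)), f v = true) ∧ ∀ v ∈ ({q.2} : Finset (Fin n)), f v = false
          then (1 : ℝ) else 0 := by
    intro f
    rw [card_mod, Nat.cast_add]
    congr 1
    · rw [card_filter]
      push_cast
      refine sum_congr rfl fun p _ => ?_
      simp
    · have h4 : (univ.filter fun q : Fin n × Fin n => q.1 ≠ u ∧ q.2 ∈ W q.1 ∧ f q.1 = true ∧ f q.2 = false)
          = (univ.filter fun q : Fin n × Fin n => q.1 ≠ u ∧ q.2 ∈ W q.1).filter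
            fun q => f q.1 = true ∧ f q.2 = false := by
        ext q
        simp only [mem_filter, mem_univ, true_and]
        tauto
      rw [h4, card_filter]
      push_cast
      refine sum_congr rfl fun q _ => ?_
      simp
  have hC : ∑ f : Fin n → Bool, wt t f * ((mod H u W f).card : ℝ) =
      (∑ p ∈ link H u, (1 - t) ^ 2) +
        ∑ q ∈ (univ.filter fun q : Fin n × Fin n => q.1 ≠ u ∧ q.2 ∈ W q.1), t * (1 - t) := by
    simp_rw [hB, mul_add, mul_sum]
    rw [sum_add_distrib, sum_comm, sum_comm (s := univ) (t := univ.filter _)]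
    congr 1
    · refine sum_congr rfl fun p hp => ?_
      rw [wt_sum t ∅ p (disjoint_empty_left _), (mem_link.1 hp).1]
      simp
    · refine sum_congr rfl fun q hq => ?_
      rw [mem_filter] at hq
      have hne : q.1 ≠ q.2 := by
        intro h
        have h5 := (hW q.1 hq.2.1).2.1
        exact h5 (h ▸ hq.2.2)
      rw [wt_sum t {q.1} {q.2} (by simpa using hne)]
      simp
  rw [hC] at hA
  have hD : ((univ.filter fun q : Fin n × Fin n => q.1 ≠ u ∧ q.2 ∈ W q.1).card : ℝ)
      = ∑ v ∈ univ.erase u, ((W v).card : ℝ) := by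
    rw [card_filter, ← filter_ne' univ u, sum_filter]
    push_cast
    rw [Fintype.sum_prod_type]
    refine sum_congr rfl fun a _ => ?_
    by_cases ha : a = u
    · simp [ha]
    · simp [ha]
  rw [sum_const, sum_const, nsmul_eq_mul, nsmul_eq_mul, hD] at hA
  linarith

end Pool.Agent.H70.LO
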